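import Pool.Agent.Y424.SX.Iter
import Pool.Agent.TH360.SR.Final

/-!
# Final form
-/

set_option autoImplicit false

namespace Pool.Agent.Y424.SX

open Finset Module
open Pool.Agent.TH360.SR (SliceRankLE Homogeneous twr tow twr_mono le_twr twr_cast tow_mono')

theorem twr_pos (k x : ℕ) (hx : 1 ≤ x) : 1 ≤ twr k x := hx.trans (le_twr k x)

theorem arith (s q q' w X : ℕ) (hq : q' ≤ q) (hX : 1 ≤ X) :
    (4 * 2 ^ X * q' ^ ((w + 1) * (w + 2) ^ (s + 2))) ^ ((4 * w + 6) ^ (s + 3)) ≤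
      2 ^ (6 ^ (s + 3) * (3 + q * 2 ^ (s + 3)) * (w + 1) ^ (2 * s + 6) * X) := by
  have h1 : q' ≤ 2 ^ q := hq.trans Nat.lt_two_pow_self.le
  have h2 : q' ^ ((w + 1) * (w + 2) ^ (s + 2)) ≤ 2 ^ (q * 2 ^ (s + 3) * (w + 1) ^ (s + 3)) := by
    calc q' ^ ((w + 1) * (w + 2) ^ (s + 2)) ≤ (2 ^ q) ^ ((w + 1) * (w + 2) ^ (s + 2)) :=
          Nat.pow_le_pow_left h1 _
      _ = 2 ^ (q * ((w + 1) * (w + 2) ^ (s + 2))) := by rw [← pow_mul]
      _ ≤ 2 ^ (q * 2 ^ (s + 3) * (w + 1) ^ (s + 3)) := by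
          apply Nat.pow_le_pow_right (by norm_num)
          rw [mul_assoc]
          apply Nat.mul_le_mul_left
          calc (w + 1) * (w + 2) ^ (s + 2) ≤ (2 * (w + 1)) * (2 * (w + 1)) ^ (s + 2) :=
                Nat.mul_le_mul (by omega) (Nat.pow_le_pow_left (by omega) _)
            _ = 2 ^ (s + 3) * (w + 1) ^ (s + 3) := by
                rw [← mul_pow, ← pow_succ']
  have hW : 1 ≤ (w + 1) ^ (s + 3) := Nat.one_le_pow _ _ (by omega)
  have h3 : 4 * 2 ^ X * q' ^ ((w + 1) * (w + 2) ^ (s + 2)) ≤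
      2 ^ ((3 + q * 2 ^ (s + 3)) * (w + 1) ^ (s + 3) * X) := by
    calc 4 * 2 ^ X * q' ^ ((w + 1) * (w + 2) ^ (s + 2)) ≤
        4 * 2 ^ X * 2 ^ (q * 2 ^ (s + 3) * (w + 1) ^ (s + 3)) := Nat.mul_le_mul_left _ h2
      _ = 2 ^ (2 + X + q * 2 ^ (s + 3) * (w + 1) ^ (s + 3)) := by
          rw [show (4 : ℕ) = 2 ^ 2 by norm_num, ← pow_add, ← pow_add]
      _ ≤ 2 ^ ((3 + q * 2 ^ (s + 3)) * (w + 1) ^ (s + 3) * X) := by
          apply Nat.pow_le_pow_right (by norm_num)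
          generalize q * 2 ^ (s + 3) = B
          generalize (w + 1) ^ (s + 3) = W at hW
          have h4 : W ≤ W * X := Nat.le_mul_of_pos_right _ hX
          have h5 : X ≤ W * X := Nat.le_mul_of_pos_left _ hW
          have h6 : B * W ≤ B * (W * X) := Nat.mul_le_mul_left _ h4
          have h7 : (3 + B) * W * X = 3 * (W * X) + B * (W * X) := by ring
          omega
  calc (4 * 2 ^ X * q' ^ ((w + 1) * (w + 2) ^ (s + 2))) ^ ((4 * w + 6) ^ (s + 3)) ≤
      (2 ^ ((3 + q * 2 ^ (s + 3)) * (w + 1) ^ (s + 3) * X)) ^ ((4 * w + 6) ^ (s + 3)) :=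
        Nat.pow_le_pow_left h3 _
    _ = 2 ^ ((3 + q * 2 ^ (s + 3)) * (w + 1) ^ (s + 3) * X * (4 * w + 6) ^ (s + 3)) := by
        rw [← pow_mul]
    _ ≤ _ := by
        apply Nat.pow_le_pow_right (by norm_num)
        calc (3 + q * 2 ^ (s + 3)) * (w + 1) ^ (s + 3) * X * (4 * w + 6) ^ (s + 3) ≤
            (3 + q * 2 ^ (s + 3)) * (w + 1) ^ (s + 3) * X * (6 * (w + 1)) ^ (s + 3) :=
              Nat.mul_le_mul_left _ (Nat.pow_le_pow_left (by omega) _)
          _ = 6 ^ (s + 3) * (3 + q * 2 ^ (s + 3)) * ((w + 1) ^ (s + 3) * (w + 1) ^ (s + 3)) * X := by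
              rw [mul_pow]
              ring
          _ = _ := by
              rw [← pow_add]
              congr 3
              ring

/-- `s + 3` is the uniformity. -/
theorem upper (s q : ℕ) : ∃ C : ℕ, ∀ w n N : ℕ,
    2 ^ (C * (w + 1) ^ (2 * s + 6) * twr s (C * n)) ≤ N →
    ∀ (κ : Type) [Fintype κ], Fintype.card κ ≤ q → ∀ (F : Type) [Field F] (c : Finset ℕ → κ),
      SliceRankLE F w (s + 2) N c → ∃ S ⊆ range N, S.card = n ∧ Homogeneous (s + 3) c S := by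
  obtain ⟨C₁, hC₁⟩ := Pool.Agent.TH360.SR.upper s q
  set C₀ := 2 ^ (C₁ * (s + 3 + 1) ^ (3 * s + 12)) with hC₀
  refine ⟨C₀ + 6 ^ (s + 3) * (3 + q * 2 ^ (s + 3)), fun w n N hN κ _ hq F _ c hc => ?_⟩
  rcases Nat.eq_zero_or_pos n with rfl | hn
  · refine ⟨∅, by simp, rfl, fun A hA B hB _ _ => ?_⟩
    rw [subset_empty.1 hA, subset_empty.1 hB]
  have hq1 : 1 ≤ Fintype.card κ := Fintype.card_pos_iff.2 ⟨c ∅⟩
  have hC₀1 : 1 ≤ C₀ := Nat.one_le_pow _ _ (by norm_num)
  have hX : 1 ≤ twr s (C₀ * n) := twr_pos _ _ (Nat.one_le_iff_ne_zero.2 (by positivity))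
  obtain ⟨K, hK, hKN, hs⟩ := collapse (M := 2 ^ twr s (C₀ * n)) hc
    (Nat.one_le_pow _ _ (by norm_num)) (by
      refine (arith s q _ w _ hq hX).trans (le_trans ?_ hN)
      apply Nat.pow_le_pow_right (by norm_num)
      apply Nat.mul_le_mul
      · exact Nat.mul_le_mul_right _ (Nat.le_add_left _ _)
      · exact twr_mono s (Nat.mul_le_mul_right _ (Nat.le_add_right _ _)))
  obtain ⟨S, hS, hSc, hSH⟩ := hC₁ (s + 3) n (2 ^ twr s (C₀ * n)) le_rfl κ hq F
    (fun S => c (S.image K)) hs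
  refine ⟨S.map ⟨K, hK.injective⟩, ?_, by rw [card_map, hSc], ?_⟩
  · intro x hx
    obtain ⟨h, hh, rfl⟩ := mem_map.1 hx
    exact mem_range.2 (hKN _ (mem_range.1 (hS hh)))
  · intro A hA B hB hAc hBc
    obtain ⟨A', hA', rfl⟩ := subset_map_iff.1 hA
    obtain ⟨B', hB', rfl⟩ := subset_map_iff.1 hB
    rw [card_map] at hAc hBc
    have := hSH A' hA' B' hB' hAc hBc
    beta_reduce at this
    rw [map_eq_image, map_eq_image]
    exact this

/-- A tower of height one more is larger than any power of the smaller tower. -/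
theorem tow_pow_le (s : ℕ) : ∀ (C : ℝ) (e : ℕ) (ε : ℝ), 1 ≤ C → 0 < ε → ∃ n₀ : ℕ, ∀ n : ℕ, n₀ ≤ n →
    (C * tow s (C * n)) ^ e ≤ tow (s + 1) (ε * n) := by
  induction s with
  | zero =>
    intro C e ε hC hε
    -- polynomials are smaller than exponentials
    have h1 : Filter.Tendsto (fun n : ℕ => (C * (C * (n : ℝ))) ^ e / 2 ^ (ε * (n : ℝ)))
        Filter.atTop (nhds 0) := by
      have h2 : Filter.Tendsto (fun x : ℝ => x ^ (e : ℝ) * Real.exp (-(ε * Real.log 2) * x))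
          Filter.atTop (nhds 0) :=
        tendsto_rpow_mul_exp_neg_mul_atTop_nhds_zero _ _ (by positivity)
      have h3 := (h2.comp tendsto_natCast_atTop_atTop).const_mul ((C * C) ^ e)
      rw [mul_zero] at h3
      refine h3.congr fun n => ?_
      simp only [Function.comp]
      rw [Real.rpow_natCast, Real.rpow_def_of_pos (by norm_num : (0 : ℝ) < 2), neg_mul,
        Real.exp_neg, mul_pow, mul_pow, mul_pow]
      have h4 : Real.log 2 * (ε * (n : ℝ)) = ε * Real.log 2 * n := by ring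
      rw [h4]
      field_simp
    have h5 := (h1.eventually (gt_mem_nhds (show (0 : ℝ) < 1 by norm_num)))
    obtain ⟨n₀, hn₀⟩ := Filter.eventually_atTop.1 h5
    refine ⟨n₀, fun n hn => ?_⟩
    have h6 := hn₀ n hn
    have h7 : (0 : ℝ) < 2 ^ (ε * (n : ℝ)) := by positivity
    rw [div_lt_one h7] at h6
    exact h6.le
  | succ s ih =>
    intro C e ε hC hε
    obtain ⟨n₀, hn₀⟩ := ih ((e + 1) * C + (e + 1)) 1 ε (by
      have : (0 : ℝ) ≤ e := Nat.cast_nonneg e
      nlinarith) hε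
    refine ⟨n₀ + 1, fun n hn => ?_⟩
    have h1 := hn₀ n (by omega)
    rw [pow_one] at h1
    have hn1 : (1 : ℝ) ≤ n := by exact_mod_cast (by omega : 1 ≤ n)
    have he : (0 : ℝ) ≤ e := Nat.cast_nonneg e
    have hC' : C ≤ (e + 1) * C + (e + 1) := by nlinarith
    have h2 : tow s (C * n) ≤ tow s (((e + 1) * C + (e + 1)) * n) :=
      tow_mono' s (mul_le_mul_of_nonneg_right hC' (by positivity))
    have hpos : ∀ (s : ℕ) (x : ℝ), 1 ≤ x → 1 ≤ tow s x := by
      intro s x hx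
      induction s with
      | zero => exact hx
      | succ s ih =>
        exact Real.one_le_rpow (by norm_num) (by linarith)
    have h3 : 1 ≤ tow s (C * n) := hpos s _ (by nlinarith)
    have h4 : C ≤ 2 ^ C := by
      have h5 : (1 : ℝ) + C * Real.log 2 ≤ 2 ^ C := by
        rw [Real.rpow_def_of_pos (by norm_num : (0 : ℝ) < 2)]
        have := Real.add_one_le_exp (Real.log 2 * C)
        linarith
      have h6 : (1 : ℝ) / 2 ≤ Real.log 2 := by
        have := Real.log_two_gt_d9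
        linarith
      -- `2 ^ C ≥ C`
      have h7 : C < 2 ^ C := by
        have h8 := Real.add_one_le_exp (Real.log 2 * C - 1)
        have h9 : Real.exp (Real.log 2 * C - 1) = 2 ^ C / Real.exp 1 := by
          rw [Real.rpow_def_of_pos (by norm_num : (0 : ℝ) < 2), Real.exp_sub]
        rw [h9] at h8
        have h10 : Real.log 2 * C ≤ 2 ^ C / Real.exp 1 := by linarith
        rw [le_div_iff₀ (Real.exp_pos 1)] at h10
        have h11 := Real.exp_one_gt_d9
        have h12 := Real.log_two_gt_d9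
        have h13 : (1 : ℝ) < Real.log 2 * Real.exp 1 := by nlinarith
        nlinarith
      exact h7.le
    show (C * 2 ^ tow s (C * n)) ^ e ≤ 2 ^ tow (s + 1) (ε * n)
    calc (C * 2 ^ tow s (C * n)) ^ e ≤ (2 ^ C * 2 ^ tow s (C * n)) ^ e := by
          apply pow_le_pow_left₀ (by positivity)
          exact mul_le_mul_of_nonneg_right h4 (by positivity)
      _ = 2 ^ ((C + tow s (C * n)) * e) := by
          rw [← Real.rpow_add (by norm_num), ← Real.rpow_natCast, ← Real.rpow_mul (by norm_num)]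
      _ ≤ 2 ^ tow (s + 1) (ε * n) := by
          apply Real.rpow_le_rpow_of_exponent_le (by norm_num)
          refine le_trans ?_ h1
          have h5 : 1 ≤ tow s (((e + 1) * C + (e + 1)) * n) := h3.trans h2
          nlinarith [mul_nonneg he (by linarith : (0 : ℝ) ≤ tow s (C * n) - 1)]

/-- Tower growth of full height needs very large slice rank. -/
theorem full_height (s q : ℕ) (ε : ℝ) (hε : 0 < ε) : ∃ n₀ : ℕ, ∀ n : ℕ, n₀ ≤ n →
    ∀ w N : ℕ, tow (s + 2) (ε * n) ≤ N → ((w : ℝ) + 1) ^ (2 * s + 7) ≤ Real.logb 2 N →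
    ∀ (κ : Type) [Fintype κ], Fintype.card κ ≤ q → ∀ (F : Type) [Field F] (c : Finset ℕ → κ),
      SliceRankLE F w (s + 2) N c → ∃ S ⊆ range N, S.card = n ∧ Homogeneous (s + 3) c S := by
  obtain ⟨C, hC⟩ := upper s q
  obtain ⟨n₀, hn₀⟩ := tow_pow_le s ((C : ℝ) + 1) (2 * s + 7) ε (by
    have : (0 : ℝ) ≤ C := Nat.cast_nonneg C
    linarith) hε
  refine ⟨n₀, fun n hn w N hN hw κ _ hq F _ c hc => ?_⟩
  refine hC w n N ?_ κ hq F c hc
  have hN0 : (0 : ℝ) < N := by
    refine lt_of_lt_of_le ?_ hN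
    show (0 : ℝ) < 2 ^ _
    positivity
  have h1 := hn₀ n hn
  have hL : tow (s + 1) (ε * n) ≤ Real.logb 2 N := by
    rw [Real.le_logb_iff_rpow_le (by norm_num) hN0]
    exact hN
  set Λ := Real.logb 2 N with hΛ
  have hY : ((C : ℝ) * tow s (C * n)) ≤ (C + 1) * tow s ((C + 1) * n) := by
    have h2 : tow s ((C : ℝ) * n) ≤ tow s ((C + 1) * n) :=
      tow_mono' s (mul_le_mul_of_nonneg_right (by linarith) (Nat.cast_nonneg n))
    have h3 : 0 ≤ tow s ((C : ℝ) * n) := by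
      rw [← Nat.cast_mul, ← twr_cast]
      exact Nat.cast_nonneg _
    exact mul_le_mul (by linarith) h2 h3 (by positivity)
  set Y := ((C : ℝ) + 1) * tow s ((C + 1) * n) with hYdef
  have hY0 : 0 ≤ (C : ℝ) * tow s (C * n) := by
    have h3 : 0 ≤ tow s ((C : ℝ) * n) := by
      rw [← Nat.cast_mul, ← twr_cast]
      exact Nat.cast_nonneg _
    positivity
  have hY1 : 0 ≤ Y := hY0.trans hY
  have hW : (0 : ℝ) ≤ (w : ℝ) + 1 := by positivity
  have hmain : ((w : ℝ) + 1) ^ (2 * s + 6) * Y ≤ Λ := by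
    rcases le_total Y ((w : ℝ) + 1) with h | h
    · calc ((w : ℝ) + 1) ^ (2 * s + 6) * Y ≤ ((w : ℝ) + 1) ^ (2 * s + 6) * ((w : ℝ) + 1) :=
            mul_le_mul_of_nonneg_left h (by positivity)
        _ = ((w : ℝ) + 1) ^ (2 * s + 7) := by rw [← pow_succ]
        _ ≤ Λ := hw
    · calc ((w : ℝ) + 1) ^ (2 * s + 6) * Y ≤ Y ^ (2 * s + 6) * Y :=
            mul_le_mul_of_nonneg_right (pow_le_pow_left₀ hW h _) hY1
        _ = Y ^ (2 * s + 7) := by rw [← pow_succ]
        _ ≤ Λ := h1.trans hL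
  have h2 : ((C * (w + 1) ^ (2 * s + 6) * twr s (C * n) : ℕ) : ℝ) ≤ Λ := by
    push_cast
    rw [twr_cast]
    push_cast
    calc (C : ℝ) * ((w : ℝ) + 1) ^ (2 * s + 6) * tow s (C * n) =
        ((w : ℝ) + 1) ^ (2 * s + 6) * (C * tow s (C * n)) := by ring
      _ ≤ ((w : ℝ) + 1) ^ (2 * s + 6) * Y := mul_le_mul_of_nonneg_left hY (by positivity)
      _ ≤ Λ := hmain
  rw [hΛ, Real.le_logb_iff_rpow_le (by norm_num) hN0, Real.rpow_natCast] at h2
  exact_mod_cast h2

end Pool.Agent.Y424.SX
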