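import Mathlib

/-!
# Consecutive blocks on which a monotone quantity is constant
-/

set_option autoImplicit false

namespace Pool.Agent.Y424.SX

open Finset Module

/-- Consecutive blocks of equal lengths on which the quantity `μ` has the same value. -/
theorem blocks (μ : ℕ → ℕ → ℕ) (hμ : ∀ a b a' b', a ≤ a' → b' ≤ b → μ a' b' ≤ μ a b)
    (M : ℕ) (hM : 1 ≤ M) : ∀ d a : ℕ, μ a (a + M ^ (d + 1)) ≤ d →
    ∃ a' L, a ≤ a' ∧ 1 ≤ L ∧ a' + M * L ≤ a + M ^ (d + 1) ∧ ∀ h < M,
      μ (a' + h * L) (a' + (h + 1) * L) = μ a' (a' + M * L) := by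
  intro d
  induction d with
  | zero =>
    intro a ha
    refine ⟨a, 1, le_rfl, le_rfl, by simp, fun h hh => ?_⟩
    have h1 : μ a (a + M * 1) = 0 := by
      have : M ^ (0 + 1) = M * 1 := by ring
      rw [this] at ha
      omega
    rw [h1]
    have h2 := hμ a (a + M * 1) (a + h * 1) (a + (h + 1) * 1) (by omega) (by omega)
    omega
  | succ d ih =>
    intro a ha
    by_cases hall : ∀ h < M,
      μ (a + h * M ^ (d + 1)) (a + (h + 1) * M ^ (d + 1)) = μ a (a + M * M ^ (d + 1))
    · refine ⟨a, M ^ (d + 1), le_rfl, Nat.one_le_pow _ _ hM, ?_, hall⟩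
      rw [← pow_succ']
    · push Not at hall
      obtain ⟨h, hh, hne⟩ := hall
      have h0 : (h + 1) * M ^ (d + 1) ≤ M * M ^ (d + 1) := Nat.mul_le_mul_right _ hh
      have hle := hμ a (a + M * M ^ (d + 1)) (a + h * M ^ (d + 1)) (a + (h + 1) * M ^ (d + 1))
        (by omega) (by omega)
      have hlt := lt_of_le_of_ne hle hne
      rw [← pow_succ'] at hlt
      have e : a + (h + 1) * M ^ (d + 1) = (a + h * M ^ (d + 1)) + M ^ (d + 1) := by ring
      rw [e] at hlt
      obtain ⟨a', L, h1, h2, h3, h4⟩ := ih (a + h * M ^ (d + 1)) (by omega)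
      refine ⟨a', L, by omega, h2, h3.trans ?_, h4⟩
      rw [← e]
      rw [pow_succ' M (d + 1)]
      omega

/-- A finite set of natural numbers is an initial part of the range of an increasing function. -/
theorem enum (H : Finset ℕ) : ∃ σ : ℕ → ℕ, StrictMono σ ∧ ∀ i < H.card, σ i ∈ H := by
  classical
  refine ⟨fun i => if h : i < H.card then H.orderEmbOfFin rfl ⟨i, h⟩ else H.sup id + 1 + i, ?_, ?_⟩
  · intro i j hij
    dsimp only
    by_cases hj : j < H.card
    · rw [dif_pos hj, dif_pos (hij.trans hj)]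
      exact (H.orderEmbOfFin rfl).strictMono (by simpa using hij)
    · rw [dif_neg hj]
      by_cases hi : i < H.card
      · rw [dif_pos hi]
        have h1 : H.orderEmbOfFin rfl ⟨i, hi⟩ ≤ H.sup id :=
          Finset.le_sup (f := id) (orderEmbOfFin_mem H rfl _)
        omega
      · rw [dif_neg hi]
        omega
  · intro i hi
    dsimp only
    rw [dif_pos hi]
    exact orderEmbOfFin_mem H rfl _

end Pool.Agent.Y424.SX
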