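import Pool.Agent.Y424.SX.StepB
import Pool.Agent.TH360.SR.Defs

/-!
# Elimination of all slices
-/

set_option autoImplicit false

namespace Pool.Agent.Y424.SX

open Finset Module
open Pool.Agent.TH360.SR (SliceRankLE)

variable {F : Type*} [Field F] {k w : ℕ}

/-- the numbers of vertices needed for `n` steps -/
def LL (w Q M : ℕ) : ℕ → ℕ
  | 0 => M
  | n + 1 => (4 * LL w Q M n * Q) ^ (2 * w + 3)

theorem LL_pos (w Q M : ℕ) (hM : 1 ≤ M) (hQ : 1 ≤ Q) : ∀ n, 1 ≤ LL w Q M n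
  | 0 => hM
  | n + 1 => by
    have := LL_pos w Q M hM hQ n
    exact Nat.one_le_pow _ _ (Nat.one_le_iff_ne_zero.2 (by positivity))

theorem LL_le (w Q M : ℕ) (hM : 1 ≤ M) (hQ : 1 ≤ Q) : ∀ n,
    LL w Q M n ≤ (4 * M * Q) ^ ((4 * w + 6) ^ n)
  | 0 => by
    show M ≤ (4 * M * Q) ^ ((4 * w + 6) ^ 0)
    rw [pow_zero, pow_one]
    nlinarith [Nat.mul_le_mul_left (4 * M) hQ]
  | n + 1 => by
    have ih := LL_le w Q M hM hQ n
    show (4 * LL w Q M n * Q) ^ (2 * w + 3) ≤ (4 * M * Q) ^ ((4 * w + 6) ^ (n + 1))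
    have hpos : 1 ≤ (4 * w + 6) ^ n := Nat.one_le_pow _ _ (by omega)
    have hbase : 1 ≤ 4 * M * Q := Nat.one_le_iff_ne_zero.2 (by positivity)
    have h1 : 4 * LL w Q M n * Q ≤ (4 * M * Q) ^ ((4 * w + 6) ^ n + 1) := by
      calc 4 * LL w Q M n * Q ≤ 4 * (4 * M * Q) ^ ((4 * w + 6) ^ n) * Q :=
            Nat.mul_le_mul_right _ (Nat.mul_le_mul_left _ ih)
        _ = (4 * M * Q) ^ ((4 * w + 6) ^ n) * (4 * 1 * Q) := by ring
        _ ≤ (4 * M * Q) ^ ((4 * w + 6) ^ n) * (4 * M * Q) :=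
            Nat.mul_le_mul_left _ (Nat.mul_le_mul_right _ (Nat.mul_le_mul_left _ hM))
        _ = _ := by rw [pow_succ]
    calc (4 * LL w Q M n * Q) ^ (2 * w + 3) ≤
        ((4 * M * Q) ^ ((4 * w + 6) ^ n + 1)) ^ (2 * w + 3) := Nat.pow_le_pow_left h1 _
      _ = (4 * M * Q) ^ (((4 * w + 6) ^ n + 1) * (2 * w + 3)) := by rw [← pow_mul]
      _ ≤ (4 * M * Q) ^ ((4 * w + 6) ^ (n + 1)) := by
          apply Nat.pow_le_pow_right hbase
          rw [pow_succ]
          nlinarith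

/-- All slices are eliminated. -/
theorem iterate {κ : Type} [Fintype κ] (a : κ → F) : ∀ (n : ℕ) (c : Finset ℕ → κ)
    (D : Finset (Fin (k + 1))) (Φ : ℕ → Fin (w + 1) → F) (N M : ℕ), 1 ≤ M →
    (univ \ D).card = n →
    (∃ g, Rep D Φ N (fun x => a (c (univ.image x))) g) →
    LL w (Fintype.card κ ^ ((w + 1) * (w + 2) ^ k)) M n ≤ N →
    ∃ K : ℕ → ℕ, StrictMono K ∧ (∀ h < M, K h < N) ∧ ∃ (Φ' : ℕ → Fin (w + 1) → F)
      (g' : Fin (k + 1) → Fin (w + 1) → (Fin k → ℕ) → F), Rep univ Φ' M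
        (fun x => a (c (univ.image fun i => K (x i)))) g' := by
  classical
  intro n
  induction n with
  | zero =>
    intro c D Φ N M hM hD hg hN
    have hD' : D = univ := by
      rw [card_eq_zero, sdiff_eq_empty_iff_subset] at hD
      exact eq_univ_iff_forall.2 fun x => hD (mem_univ x)
    subst hD'
    obtain ⟨g, hg⟩ := hg
    refine ⟨id, strictMono_id, fun h hh => lt_of_lt_of_le hh hN, Φ, g, ?_⟩
    intro x hx hxM
    exact hg x hx (fun i => lt_of_lt_of_le (hxM i) hN)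
  | succ n ih =>
    intro c D Φ N M hM hD hg hN
    have hq : 1 ≤ Fintype.card κ := Fintype.card_pos_iff.2 ⟨c ∅⟩
    have hQ : 1 ≤ Fintype.card κ ^ ((w + 1) * (w + 2) ^ k) := Nat.one_le_pow _ _ hq
    obtain ⟨j, hj⟩ : ∃ j, j ∈ univ \ D := by
      rw [← Finset.nonempty_def, ← card_pos]
      omega
    have hjD : j ∉ D := (mem_sdiff.1 hj).2
    obtain ⟨g, hg⟩ := hg
    obtain ⟨K₁, hK₁, hK₁N, g₁, hg₁⟩ := step a c D Φ g j hjD N
      (LL w (Fintype.card κ ^ ((w + 1) * (w + 2) ^ k)) M n) (LL_pos _ _ _ hM hQ n) hg hN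
    have hcard : (univ \ insert j D).card = n := by
      have e : univ \ insert j D = (univ \ D).erase j := by
        ext x
        simp only [mem_sdiff, mem_univ, true_and, mem_insert, mem_erase]
        tauto
      rw [e, card_erase_of_mem hj, hD]
      rfl
    have himg : ∀ (K : ℕ → ℕ) (x : Fin (k + 1) → ℕ), (univ.image x).image K =
        univ.image fun i => K (x i) := by
      intro K x
      rw [image_image]
      rfl
    obtain ⟨K₂, hK₂, hK₂N, Φ', g', hg'⟩ := ih (fun S => c (S.image K₁)) (insert j D)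
      (fun h => Φ (K₁ h)) _ M hM hcard ⟨g₁, by
        intro x hx hxM
        beta_reduce
        rw [himg]
        exact hg₁ x hx hxM⟩ le_rfl
    refine ⟨fun h => K₁ (K₂ h), hK₁.comp hK₂, fun h hh => hK₁N _ (hK₂N h hh), Φ', g', ?_⟩
    intro x hx hxM
    have h1 := hg' x hx hxM
    beta_reduce at h1 ⊢
    rw [image_image] at h1
    exact h1

theorem rep_of_slice {κ : Type} {N : ℕ} {c : Finset ℕ → κ} (hc : SliceRankLE F w k N c) :
    ∃ (a : κ → F) (Φ : ℕ → Fin (w + 1) → F)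
      (g : Fin (k + 1) → Fin (w + 1) → (Fin k → ℕ) → F), Function.Injective a ∧
      Rep ∅ Φ N (fun x => a (c (univ.image x))) g := by
  classical
  obtain ⟨a, p, f, g, ha, hT⟩ := hc
  refine ⟨a, fun v => (Fin.snoc (fun s => f s v) 0 : Fin (w + 1) → F),
    fun m => (Fin.snoc (fun s => if p s = m then g s else 0) 0 :
      Fin (w + 1) → ((Fin k → ℕ) → F)), ha, ?_⟩
  intro x hx hxN
  beta_reduce
  rw [hT x hx hxN]
  have h1 : ∀ m : Fin (k + 1), ∑ t, fam ∅ (fun v => (Fin.snoc (fun s => f s v) 0 :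
      Fin (w + 1) → F)) m t (x m) * (Fin.snoc (fun s => if p s = m then g s else 0) 0 :
        Fin (w + 1) → ((Fin k → ℕ) → F)) t (m.removeNth x) =
      ∑ s : Fin w, f s (x m) * (if p s = m then g s else 0) (m.removeNth x) := by
    intro m
    rw [Fin.sum_univ_castSucc]
    simp only [fam, Fin.snoc_castSucc, Fin.snoc_last, zero_mul, add_zero,
      notMem_empty, if_false]
  rw [Finset.sum_congr rfl (fun m _ => h1 m), Finset.sum_comm]
  refine Finset.sum_congr rfl fun s _ => ?_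
  rw [Finset.sum_eq_single (p s)]
  · simp
  · intro m _ hm
    rw [if_neg (fun e => hm e.symm)]
    simp
  · simp

theorem slice_of_rep {κ : Type} {N : ℕ} {c : Finset ℕ → κ} {a : κ → F}
    (ha : Function.Injective a) {Φ : ℕ → Fin (w + 1) → F}
    {g : Fin (k + 1) → Fin (w + 1) → (Fin k → ℕ) → F}
    (hT : Rep univ Φ N (fun x => a (c (univ.image x))) g) : SliceRankLE F (k + 1) k N c := by
  classical
  refine ⟨a, id, fun _ _ => 1, fun m => g m 0, ha, ?_⟩
  intro x hx hxN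
  have h1 := hT x hx hxN
  beta_reduce at h1
  rw [h1]
  refine Finset.sum_congr rfl fun m _ => ?_
  rw [Finset.sum_eq_single 0]
  · simp [fam]
  · intro t _ ht
    simp [fam, ht]
  · simp

/-- A large set of vertices on which the colouring has slice rank at most the uniformity. -/
theorem collapse {κ : Type} [Fintype κ] {N M : ℕ} {c : Finset ℕ → κ}
    (hc : SliceRankLE F w k N c) (hM : 1 ≤ M)
    (hN : (4 * M * Fintype.card κ ^ ((w + 1) * (w + 2) ^ k)) ^ ((4 * w + 6) ^ (k + 1)) ≤ N) :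
    ∃ K : ℕ → ℕ, StrictMono K ∧ (∀ h < M, K h < N) ∧
      SliceRankLE F (k + 1) k M (fun S => c (S.image K)) := by
  classical
  have hq : 1 ≤ Fintype.card κ := Fintype.card_pos_iff.2 ⟨c ∅⟩
  obtain ⟨a, Φ, g, ha, hg⟩ := rep_of_slice hc
  obtain ⟨K, hK, hKN, Φ', g', hg'⟩ := iterate a (k + 1) c ∅ Φ N M hM (by simp) ⟨g, hg⟩
    ((LL_le _ _ _ hM (Nat.one_le_pow _ _ hq) _).trans hN)
  refine ⟨K, hK, hKN, slice_of_rep (Φ := Φ') (g := g') ha ?_⟩
  intro x hx hxM
  have h1 := hg' x hx hxM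
  beta_reduce at h1 ⊢
  rw [image_image]
  exact h1

/-- A large set of vertices on which the colouring is a sum of functions of `k` coordinates. -/
theorem collapse' {κ : Type} [Fintype κ] {N M : ℕ} {c : Finset ℕ → κ}
    (hc : SliceRankLE F w k N c) (hM : 1 ≤ M)
    (hN : (4 * M * Fintype.card κ ^ ((w + 1) * (w + 2) ^ k)) ^ ((4 * w + 6) ^ (k + 1)) ≤ N) :
    ∃ (K : ℕ → ℕ) (a : κ → F) (g : Fin (k + 1) → (Fin k → ℕ) → F), StrictMono K ∧
      (∀ h < M, K h < N) ∧ Function.Injective a ∧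
      ∀ x : Fin (k + 1) → ℕ, StrictMono x → (∀ i, x i < M) →
        a (c (univ.image fun i => K (x i))) = ∑ m, g m (m.removeNth x) := by
  classical
  have hq : 1 ≤ Fintype.card κ := Fintype.card_pos_iff.2 ⟨c ∅⟩
  obtain ⟨a, Φ, g, ha, hg⟩ := rep_of_slice hc
  obtain ⟨K, hK, hKN, Φ', g', hg'⟩ := iterate a (k + 1) c ∅ Φ N M hM (by simp) ⟨g, hg⟩
    ((LL_le _ _ _ hM (Nat.one_le_pow _ _ hq) _).trans hN)
  refine ⟨K, a, fun m => g' m 0, hK, hKN, ha, ?_⟩
  intro x hx hxM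
  have h1 := hg' x hx hxM
  beta_reduce at h1 ⊢
  rw [h1]
  refine Finset.sum_congr rfl fun m _ => ?_
  rw [Finset.sum_eq_single 0]
  · simp [fam]
  · intro t _ ht
    simp [fam, ht]
  · simp

end Pool.Agent.Y424.SX
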