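import Mathlib

/-!
# Sums over replaced coordinates

`expand`: a sum over all ways to replace the coordinates of a tuple, applied to a sum of slices.
-/

set_option autoImplicit false

namespace Pool.Agent.Y424.SX

open Finset Module

variable {F : Type*} [Field F] {k w : ℕ}

/-- A sum over all ways to replace the coordinates, applied to a sum of slices. -/
theorem expand {O W : Type*} [Fintype O] [Fintype W] (f : Fin (k + 1) → W → ℕ → F)
    (g : Fin (k + 1) → W → (Fin k → ℕ) → F)
    (ζ : Fin (k + 1) → O → ℕ) (u : Fin (k + 1) → O → F) :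
    ∑ α : Fin (k + 1) → O, (∏ i, u i (α i)) *
      (∑ m, ∑ t, f m t (ζ m (α m)) * g m t (m.removeNth (fun i => ζ i (α i)))) =
    ∑ m, ∑ t, (∑ o, u m o * f m t (ζ m o)) *
      (∑ β : Fin k → O, (∏ i, u (m.succAbove i) (β i)) *
        g m t (fun i => ζ (m.succAbove i) (β i))) := by
  simp only [Finset.mul_sum]
  rw [Finset.sum_comm]
  refine Finset.sum_congr rfl fun m _ => ?_
  rw [Finset.sum_comm]
  refine Finset.sum_congr rfl fun t _ => ?_
  rw [← (Fin.insertNthEquiv (fun _ : Fin (k + 1) => O) m).sum_comp, Fintype.sum_prod_type,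
    Finset.sum_comm]
  refine Finset.sum_congr rfl fun β _ => ?_
  rw [Finset.sum_mul]
  refine Finset.sum_congr rfl fun o _ => ?_
  rw [Fin.prod_univ_succAbove _ m]
  have e : m.removeNth (fun i => ζ i
      ((Fin.insertNthEquiv (fun _ : Fin (k + 1) => O) m) (o, β) i)) =
      fun i => ζ (m.succAbove i) (β i) := by
    funext i
    simp [Fin.removeNth]
  rw [e]
  simp only [Fin.insertNthEquiv_apply, Fin.insertNth_apply_same, Fin.insertNth_apply_succAbove]
  ring

/-- the sum over the ways to replace the coordinates different from `j`, with `v` as coordinate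
`j` -/
def Us {O : Type*} [Fintype O] (T : (Fin (k + 1) → ℕ) → F) (j : Fin (k + 1)) (v : ℕ)
    (ζ : Fin k → O → ℕ) (u : Fin k → O → F) : F :=
  ∑ β : Fin k → O, (∏ i, u i (β i)) * T (j.insertNth v (fun i => ζ i (β i)))

/-- the corresponding sum of the functions of the `k` coordinates different from `j` -/
def Gm {O W : Type*} [Fintype O] (g : Fin (k + 1) → W → (Fin k → ℕ) → F) (j : Fin (k + 1))
    (ζ : Fin k → O → ℕ) (u : Fin k → O → F) : W → F := fun t =>
  ∑ β : Fin k → O, (∏ i, u i (β i)) * g j t (fun i => ζ i (β i))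

/-- The sum over the ways to replace all coordinates, split according to coordinate `j`. -/
theorem full_split {O : Type*} [Fintype O] (T : (Fin (k + 1) → ℕ) → F) (j : Fin (k + 1))
    (ζ : Fin (k + 1) → O → ℕ) (u : Fin (k + 1) → O → F) :
    ∑ α : Fin (k + 1) → O, (∏ i, u i (α i)) * T (fun i => ζ i (α i)) =
      ∑ o, u j o * Us T j (ζ j o) (fun i => ζ (j.succAbove i)) (fun i => u (j.succAbove i)) := by
  rw [← (Fin.insertNthEquiv (fun _ : Fin (k + 1) => O) j).sum_comp, Fintype.sum_prod_type]
  refine Finset.sum_congr rfl fun o _ => ?_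
  unfold Us
  rw [Finset.mul_sum]
  refine Finset.sum_congr rfl fun β _ => ?_
  rw [Fin.prod_univ_succAbove _ j]
  have e : (fun i => ζ i ((Fin.insertNthEquiv (fun _ : Fin (k + 1) => O) j) (o, β) i)) =
      (j.insertNth (ζ j o) (fun i => ζ (j.succAbove i) (β i)) : Fin (k + 1) → ℕ) := by
    funext i
    refine Fin.succAboveCases j ?_ (fun i => ?_) i
    · simp
    · simp
  rw [e]
  simp only [Fin.insertNthEquiv_apply, Fin.insertNth_apply_same, Fin.insertNth_apply_succAbove]
  ring

/-- If the slices at the coordinates different from `j` are annihilated, only the slices at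
coordinate `j` remain. -/
theorem us_eq {O W : Type*} [Fintype O] [Fintype W] (o₀ : O) (T : (Fin (k + 1) → ℕ) → F)
    (f : Fin (k + 1) → W → ℕ → F) (g : Fin (k + 1) → W → (Fin k → ℕ) → F) (j : Fin (k + 1))
    (v : ℕ) (ζ : Fin k → O → ℕ) (u : Fin k → O → F)
    (hT : ∀ β : Fin k → O, T (j.insertNth v (fun i => ζ i (β i))) =
      ∑ m, ∑ t, f m t ((j.insertNth v (fun i => ζ i (β i)) : Fin (k + 1) → ℕ) m) *
        g m t (m.removeNth (j.insertNth v (fun i => ζ i (β i)) : Fin (k + 1) → ℕ)))
    (hkill : ∀ i t, ∑ o, u i o * f (j.succAbove i) t (ζ i o) = 0) :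
    Us T j v ζ u = ∑ t, f j t v * Gm g j ζ u t := by
  classical
  have h1 := full_split (fun x => ∑ m, ∑ t, f m t (x m) * g m t (m.removeNth x)) j
    (j.insertNth (fun _ => v) ζ : Fin (k + 1) → O → ℕ)
    (j.insertNth (fun o => if o = o₀ then 1 else 0) u : Fin (k + 1) → O → F)
  rw [expand f g] at h1
  simp only [Fin.insertNth_apply_same, Fin.insertNth_apply_succAbove, ite_mul, one_mul, zero_mul,
    Finset.sum_ite_eq', Finset.mem_univ, if_true] at h1
  have h2 : Us T j v ζ u = Us (fun x => ∑ m, ∑ t, f m t (x m) * g m t (m.removeNth x)) j v ζ u := by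
    unfold Us
    refine Finset.sum_congr rfl fun β _ => ?_
    rw [hT]
  rw [h2, ← h1, Fin.sum_univ_succAbove _ j]
  have h3 : ∀ i : Fin k, ∑ t, (∑ o, (j.insertNth (fun o => if o = o₀ then 1 else 0) u :
      Fin (k + 1) → O → F) (j.succAbove i) o * f (j.succAbove i) t
        ((j.insertNth (fun _ => v) ζ : Fin (k + 1) → O → ℕ) (j.succAbove i) o)) *
      (∑ β : Fin k → O, (∏ i', (j.insertNth (fun o => if o = o₀ then 1 else 0) u :
        Fin (k + 1) → O → F) ((j.succAbove i).succAbove i') (β i')) *
        g (j.succAbove i) t (fun i' => (j.insertNth (fun _ => v) ζ : Fin (k + 1) → O → ℕ)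
          ((j.succAbove i).succAbove i') (β i'))) = 0 := by
    intro i
    refine Finset.sum_eq_zero fun t _ => ?_
    simp only [Fin.insertNth_apply_succAbove]
    rw [hkill i t, zero_mul]
  rw [Finset.sum_eq_zero (fun i _ => h3 i), add_zero]
  refine Finset.sum_congr rfl fun t _ => ?_
  simp only [Fin.insertNth_apply_same, Fin.insertNth_apply_succAbove, ite_mul, one_mul, zero_mul,
    Finset.sum_ite_eq', Finset.mem_univ, if_true]
  rfl

end Pool.Agent.Y424.SX
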