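import Pool.Agent.Y424.SX.Types

/-!
# Elimination of the slices at one coordinate
-/

set_option autoImplicit false

namespace Pool.Agent.Y424.SX

open Finset Module
open Pool.Agent.TH360.SR (refs prv prv_le mm mm_spec)

variable {F : Type*} [Field F] {k w : ℕ}

/-- the positions: coordinate `i` is the vertex `K (h i)` or a reference point of the gap after the
preceding coordinate -/
def ZZ (K ρ : ℕ → ℕ) (y : ℕ → Fin (w + 1) → ℕ) (j : Fin (k + 1)) (h : Fin (k + 1) → ℕ)
    (i : Fin (k + 1)) : Option (Fin (w + 1)) → ℕ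
  | none => K (h i)
  | some l => if i = j then ρ (prv h i) else y (prv h i) l

/-- the coefficients -/
def Bo (D : Finset (Fin (k + 1))) (b : ℕ → Fin (w + 1) → (Fin (w + 1) → F) →ₗ[F] F) (s : ℕ)
    (i : Fin (k + 1)) (t : Fin (w + 1)) : Option (Fin (w + 1)) → F
  | none => 0
  | some l => if i ∈ D then (if l = 0 ∧ t = 0 then 1 else 0) else b s l (Pi.single t 1)

/-- the weights -/
def uu (D : Finset (Fin (k + 1))) (b : ℕ → Fin (w + 1) → (Fin (w + 1) → F) →ₗ[F] F)
    (Φ : ℕ → Fin (w + 1) → F) (h : Fin (k + 1) → ℕ) (i : Fin (k + 1)) : Option (Fin (w + 1)) → F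
  | none => 1
  | some l => - ∑ t, Bo D b (prv h i) i t (some l) * fam D Φ i t (h i)

theorem uu_mem {D : Finset (Fin (k + 1))} (b : ℕ → Fin (w + 1) → (Fin (w + 1) → F) →ₗ[F] F)
    (Φ : ℕ → Fin (w + 1) → F) (h : Fin (k + 1) → ℕ) {i : Fin (k + 1)} (hi : i ∈ D)
    (l : Fin (w + 1)) : uu D b Φ h i (some l) = - (if l = 0 then 1 else 0) := by
  simp only [uu, Bo, fam, if_pos hi]
  congr 1
  rw [Finset.sum_eq_single 0]
  · simp
  · intro t _ ht
    simp [ht]
  · simp

theorem uu_not {D : Finset (Fin (k + 1))} (b : ℕ → Fin (w + 1) → (Fin (w + 1) → F) →ₗ[F] F)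
    (Φ : ℕ → Fin (w + 1) → F) (h : Fin (k + 1) → ℕ) {i : Fin (k + 1)} (hi : i ∉ D)
    (l : Fin (w + 1)) : uu D b Φ h i (some l) = - b (prv h i) l (Φ (h i)) := by
  simp only [uu, Bo, fam, if_neg hi]
  congr 1
  have h1 : Φ (h i) = ∑ t, Φ (h i) t • (Pi.single t 1 : Fin (w + 1) → F) := by
    funext t
    rw [Finset.sum_apply]
    simp [Pi.single_apply]
  conv_rhs => rw [h1]
  rw [map_sum]
  refine Finset.sum_congr rfl fun t _ => ?_
  rw [map_smul, smul_eq_mul]
  ring

section

variable {K ρ : ℕ → ℕ} {y : ℕ → Fin (w + 1) → ℕ} {j : Fin (k + 1)} {M N L : ℕ}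

theorem ZZ_le (hK : StrictMono K) (h1 : ∀ s < M, ∀ l, y s l < ρ s) (h1' : ∀ s < M, ρ s < K s)
    {h : Fin (k + 1) → ℕ} (hh : StrictMono h) (hM : ∀ i, h i < M) (i : Fin (k + 1))
    (o : Option (Fin (w + 1))) : ZZ K ρ y j h i o ≤ K (h i) := by
  cases o with
  | none => exact le_rfl
  | some l =>
    have h3 := prv_le hh i
    have h4 : prv h i < M := lt_of_le_of_lt h3 (hM i)
    have h5 := hK.monotone h3
    simp only [ZZ]
    split_ifs
    · exact (h1' _ h4).le.trans h5
    · exact ((h1 _ h4 l).trans (h1' _ h4)).le.trans h5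

theorem lt_ZZ (hK : StrictMono K) (h1 : ∀ s < M, ∀ l, y s l < ρ s)
    (h2 : ∀ h s, h < s → s < M → ∀ l, K h < y s l)
    {h : Fin (k + 1) → ℕ} (hh : StrictMono h) (hM : ∀ i, h i < M) (i : Fin k)
    (o : Option (Fin (w + 1))) : K (h i.castSucc) < ZZ K ρ y j h i.succ o := by
  have h4 : h i.castSucc < h i.succ := hh Fin.castSucc_lt_succ
  have h5 := hM i.succ
  cases o with
  | none => exact hK h4
  | some l =>
    have h3 : prv h i.succ = h i.castSucc + 1 := by simp only [prv, Fin.cons_succ]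
    simp only [ZZ]
    rw [h3]
    split_ifs
    · exact (h2 _ _ (Nat.lt_succ_self _) (by omega) l).trans (h1 _ (by omega) l)
    · exact h2 _ _ (Nat.lt_succ_self _) (by omega) l

theorem mono_gen (hK : StrictMono K) (h1 : ∀ s < M, ∀ l, y s l < ρ s) (h1' : ∀ s < M, ρ s < K s)
    (h2 : ∀ h s, h < s → s < M → ∀ l, K h < y s l)
    {h : Fin (k + 1) → ℕ} (hh : StrictMono h) (hM : ∀ i, h i < M) (v : ℕ)
    (hv1 : ∀ i : Fin k, i.succ = j → K (h i.castSucc) < v)
    (hv2 : ∀ i : Fin k, i.castSucc = j → ∀ o, v < ZZ K ρ y j h i.succ o)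
    (α : Fin (k + 1) → Option (Fin (w + 1))) :
    StrictMono (fun i => if i = j then v else ZZ K ρ y j h i (α i)) := by
  rw [Fin.strictMono_iff_lt_succ]
  intro i
  have hne : i.castSucc ≠ i.succ := Fin.castSucc_lt_succ.ne
  have e1 := ZZ_le (j := j) hK h1 h1' hh hM i.castSucc (α i.castSucc)
  have e2 := lt_ZZ (j := j) hK h1 h2 hh hM i (α i.succ)
  by_cases hc : i.castSucc = j
  · rw [if_pos hc, if_neg (fun e => hne (hc.trans e.symm))]
    exact hv2 i hc _
  · rw [if_neg hc]
    by_cases hs : i.succ = j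
    · rw [if_pos hs]
      exact lt_of_le_of_lt e1 (hv1 i hs)
    · rw [if_neg hs]
      exact lt_of_le_of_lt e1 e2

theorem ins_eq (h : Fin (k + 1) → ℕ) (v : ℕ) (β : Fin k → Option (Fin (w + 1))) :
    (j.insertNth v (fun i => ZZ K ρ y j h (j.succAbove i) (β i)) : Fin (k + 1) → ℕ) =
      fun i => if i = j then v else
        ZZ K ρ y j h i ((j.insertNth none β : Fin (k + 1) → Option (Fin (w + 1))) i) := by
  funext i
  refine Fin.succAboveCases j ?_ (fun i => ?_) i
  · simp
  · simp [Fin.succAbove_ne]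

theorem good_gen (hK : StrictMono K) (hKN : ∀ h < M, K h < N)
    (h1 : ∀ s < M, ∀ l, y s l < ρ s) (h1' : ∀ s < M, ρ s < K s)
    (h2 : ∀ h s, h < s → s < M → ∀ l, K h < y s l)
    {h : Fin (k + 1) → ℕ} (hh : StrictMono h) (hM : ∀ i, h i < M) (v : ℕ) (hvN : v < N)
    (hv1 : ∀ i : Fin k, i.succ = j → K (h i.castSucc) < v)
    (hv2 : ∀ i : Fin k, i.castSucc = j → ∀ o, v < ZZ K ρ y j h i.succ o) :
    Good j N (fun i => ZZ K ρ y j h (j.succAbove i)) v := by
  intro β
  constructor
  · have := mono_gen hK h1 h1' h2 hh hM v hv1 hv2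
      (j.insertNth none β : Fin (k + 1) → Option (Fin (w + 1)))
    rw [← ins_eq] at this
    exact this
  · intro i
    have e := congrFun (ins_eq (K := K) (ρ := ρ) (y := y) (j := j) h v β) i
    beta_reduce at e ⊢
    rw [e]
    split_ifs
    · exact hvN
    · exact lt_of_le_of_lt (ZZ_le hK h1 h1' hh hM i _) (hKN _ (hM i))

/-- The tuple does not depend on the last replaced coordinate. -/
theorem ZZ_indep (h : Fin (k + 1) → ℕ) (α : Fin (k + 1) → Option (Fin (w + 1)))
    (hα : α ≠ fun _ => none) (x : ℕ) :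
    (fun i => ZZ K ρ y j h i (α i)) =
      fun i => ZZ K ρ y j ((mm α).insertNth x ((mm α).removeNth h) : Fin (k + 1) → ℕ) i (α i) := by
  obtain ⟨h1, h2⟩ := mm_spec α hα
  have hoff : ∀ i, i ≠ mm α →
      ((mm α).insertNth x ((mm α).removeNth h) : Fin (k + 1) → ℕ) i = h i := by
    intro i hi
    obtain ⟨j, rfl⟩ := Fin.exists_succAbove_eq hi
    simp [Fin.removeNth]
  funext i
  cases hi : α i with
  | none =>
    have hne : i ≠ mm α := by
      rintro rfl
      exact h1 hi
    simp only [ZZ]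
    rw [hoff i hne]
  | some l =>
    have hle : i ≤ mm α := by
      by_contra hcon
      rw [h2 i (not_le.1 hcon)] at hi
      exact absurd hi (by simp)
    have hprv : prv ((mm α).insertNth x ((mm α).removeNth h) : Fin (k + 1) → ℕ) i = prv h i := by
      revert hle
      refine Fin.cases ?_ (fun i => ?_) i
      · intro _
        simp [prv]
      · intro hle
        simp only [prv, Fin.cons_succ]
        rw [hoff]
        exact (lt_of_lt_of_le Fin.castSucc_lt_succ hle).ne
    simp only [ZZ]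
    rw [hprv]

/-- The weights different from the one of the last replaced coordinate do not depend on this
coordinate. -/
theorem uu_indep (D : Finset (Fin (k + 1))) (b : ℕ → Fin (w + 1) → (Fin (w + 1) → F) →ₗ[F] F)
    (Φ : ℕ → Fin (w + 1) → F) (h : Fin (k + 1) → ℕ) (α : Fin (k + 1) → Option (Fin (w + 1)))
    (hα : α ≠ fun _ => none) (x : ℕ) (i : Fin (k + 1)) (hi : i ≠ mm α) :
    uu D b Φ h i (α i) =
      uu D b Φ ((mm α).insertNth x ((mm α).removeNth h) : Fin (k + 1) → ℕ) i (α i) := by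
  obtain ⟨h1, h2⟩ := mm_spec α hα
  have hoff : ∀ i, i ≠ mm α →
      ((mm α).insertNth x ((mm α).removeNth h) : Fin (k + 1) → ℕ) i = h i := by
    intro i hi
    obtain ⟨j, rfl⟩ := Fin.exists_succAbove_eq hi
    simp [Fin.removeNth]
  cases hi' : α i with
  | none => rfl
  | some l =>
    have hle : i ≤ mm α := by
      by_contra hcon
      rw [h2 i (not_le.1 hcon)] at hi'
      exact absurd hi' (by simp)
    have hprv : prv ((mm α).insertNth x ((mm α).removeNth h) : Fin (k + 1) → ℕ) i = prv h i := by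
      clear hi' hi
      revert hle
      refine Fin.cases ?_ (fun i => ?_) i
      · intro _
        simp [prv]
      · intro hle
        simp only [prv, Fin.cons_succ]
        rw [hoff]
        exact (lt_of_lt_of_le Fin.castSucc_lt_succ hle).ne
    simp only [uu]
    rw [hprv, hoff i hi]

theorem prv_indep (h : Fin (k + 1) → ℕ) (m : Fin (k + 1)) (x : ℕ) :
    prv (m.insertNth x (m.removeNth h) : Fin (k + 1) → ℕ) m = prv h m := by
  have hoff : ∀ i, i ≠ m →
      (m.insertNth x (m.removeNth h) : Fin (k + 1) → ℕ) i = h i := by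
    intro i hi
    obtain ⟨j, rfl⟩ := Fin.exists_succAbove_eq hi
    simp [Fin.removeNth]
  induction m using Fin.cases with
  | zero => simp [prv]
  | succ i =>
    simp only [prv, Fin.cons_succ]
    rw [hoff]
    exact Fin.castSucc_lt_succ.ne

end

/-- If the cleaned sums vanish, the function is a sum of slices. -/
theorem rep_of_sum (D : Finset (Fin (k + 1))) (b : ℕ → Fin (w + 1) → (Fin (w + 1) → F) →ₗ[F] F)
    (Φ : ℕ → Fin (w + 1) → F) (T : (Fin (k + 1) → ℕ) → F) (K ρ : ℕ → ℕ)
    (y : ℕ → Fin (w + 1) → ℕ) (j : Fin (k + 1)) (M : ℕ)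
    (hsum : ∀ h : Fin (k + 1) → ℕ, StrictMono h → (∀ i, h i < M) →
      ∑ α : Fin (k + 1) → Option (Fin (w + 1)), (∏ i, uu D b Φ h i (α i)) *
        T (fun i => ZZ K ρ y j h i (α i)) = 0) :
    ∃ g, Rep D Φ M (fun h => T (fun i => K (h i))) g := by
  classical
  refine ⟨fun m t η => ∑ α : Fin (k + 1) → Option (Fin (w + 1)),
    if α ≠ (fun _ => none) ∧ mm α = m then
      Bo D b (prv (m.insertNth 0 η : Fin (k + 1) → ℕ) m) m t (α m) *
        ((∏ i, uu D b Φ (m.insertNth 0 η : Fin (k + 1) → ℕ) (m.succAbove i)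
          (α (m.succAbove i))) *
        T (fun i => ZZ K ρ y j (m.insertNth 0 η : Fin (k + 1) → ℕ) i (α i))) else 0, ?_⟩
  intro h hh hM
  have h0 := hsum h hh hM
  rw [← Finset.add_sum_erase _ _ (mem_univ (fun _ : Fin (k + 1) =>
    (none : Option (Fin (w + 1)))))] at h0
  have h7 : ∏ i : Fin (k + 1), uu D b Φ h i none = 1 := Finset.prod_eq_one fun i _ => rfl
  rw [h7, one_mul] at h0
  have h8 : T (fun i => ZZ K ρ y j h i none) = T (fun i => K (h i)) := rfl
  rw [h8] at h0
  have h9 : ∀ α ∈ univ.erase (fun _ : Fin (k + 1) => (none : Option (Fin (w + 1)))),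
      (∏ i, uu D b Φ h i (α i)) * T (fun i => ZZ K ρ y j h i (α i)) =
      - ∑ m, ∑ t, fam D Φ m t (h m) *
        (if α ≠ (fun _ => none) ∧ mm α = m then
          Bo D b (prv (m.insertNth 0 (m.removeNth h) : Fin (k + 1) → ℕ) m) m t (α m) *
          ((∏ i, uu D b Φ (m.insertNth 0 (m.removeNth h) : Fin (k + 1) → ℕ) (m.succAbove i)
            (α (m.succAbove i))) *
          T (fun i => ZZ K ρ y j (m.insertNth 0 (m.removeNth h) : Fin (k + 1) → ℕ) i (α i)))
          else 0) := by
    intro α hα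
    have hα' : α ≠ (fun _ => none) := (mem_erase.1 hα).1
    obtain ⟨hm1, hm2⟩ := mm_spec α hα'
    rw [Finset.sum_eq_single (mm α)]
    · have hsome : ∀ o : Option (Fin (w + 1)), o ≠ none → uu D b Φ h (mm α) o =
          - ∑ t, Bo D b (prv h (mm α)) (mm α) t o * fam D Φ (mm α) t (h (mm α)) := by
        intro o ho
        cases o with
        | none => exact absurd rfl ho
        | some l => rfl
      rw [Fin.prod_univ_succAbove _ (mm α), hsome _ hm1, neg_mul, neg_mul, Finset.sum_mul,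
        Finset.sum_mul]
      congr 1
      refine Finset.sum_congr rfl fun t _ => ?_
      rw [if_pos ⟨hα', rfl⟩, prv_indep h (mm α) 0, ← ZZ_indep h α hα' 0]
      have hprod : ∏ i, uu D b Φ h ((mm α).succAbove i) (α ((mm α).succAbove i)) =
          ∏ i, uu D b Φ ((mm α).insertNth 0 ((mm α).removeNth h) : Fin (k + 1) → ℕ)
            ((mm α).succAbove i) (α ((mm α).succAbove i)) :=
        Finset.prod_congr rfl fun i _ =>
          uu_indep D b Φ h α hα' 0 _ (Fin.succAbove_ne _ _)
      rw [hprod]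
      ring
    · intro m _ hm
      refine Finset.sum_eq_zero fun t _ => ?_
      rw [if_neg (fun e => hm e.2.symm), mul_zero]
    · simp
  rw [Finset.sum_congr rfl h9, Finset.sum_neg_distrib] at h0
  have h10 : T (fun i => K (h i)) =
      ∑ α ∈ univ.erase (fun _ : Fin (k + 1) => (none : Option (Fin (w + 1)))),
      ∑ m, ∑ t, fam D Φ m t (h m) *
        (if α ≠ (fun _ => none) ∧ mm α = m then
          Bo D b (prv (m.insertNth 0 (m.removeNth h) : Fin (k + 1) → ℕ) m) m t (α m) *
          ((∏ i, uu D b Φ (m.insertNth 0 (m.removeNth h) : Fin (k + 1) → ℕ) (m.succAbove i)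
            (α (m.succAbove i))) *
          T (fun i => ZZ K ρ y j (m.insertNth 0 (m.removeNth h) : Fin (k + 1) → ℕ) i (α i)))
          else 0) := by
    rw [← sub_eq_add_neg] at h0
    exact sub_eq_zero.1 h0
  beta_reduce
  rw [h10, Finset.sum_erase _ (by simp)]
  rw [Finset.sum_comm]
  refine Finset.sum_congr rfl fun m _ => ?_
  rw [Finset.sum_comm]
  refine Finset.sum_congr rfl fun t _ => ?_
  rw [Finset.mul_sum]

end Pool.Agent.Y424.SX
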