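import Pool.Agent.Y424.SX.Step

/-!
# Elimination of the slices at one coordinate: the step
-/

set_option autoImplicit false

namespace Pool.Agent.Y424.SX

open Finset Module
open Pool.Agent.TH360.SR (refs prv prv_le mm mm_spec)

variable {F : Type*} [Field F] {k w : ℕ}

/-- The slices at coordinate `j` are eliminated. -/
theorem step {κ : Type} [Fintype κ] (a : κ → F) (c : Finset ℕ → κ)
    (D : Finset (Fin (k + 1))) (Φ : ℕ → Fin (w + 1) → F)
    (g : Fin (k + 1) → Fin (w + 1) → (Fin k → ℕ) → F) (j : Fin (k + 1)) (hj : j ∉ D) (N M : ℕ)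
    (hM : 1 ≤ M) (hT : Rep D Φ N (fun x => a (c (univ.image x))) g)
    (hN : (4 * M * Fintype.card κ ^ ((w + 1) * (w + 2) ^ k)) ^ (2 * w + 3) ≤ N) :
    ∃ K : ℕ → ℕ, StrictMono K ∧ (∀ h < M, K h < N) ∧
      ∃ g', Rep (insert j D) (fun h => Φ (K h)) M
        (fun x => a (c (univ.image fun i => K (x i)))) g' := by
  classical
  obtain ⟨A, L, M₂, σ, hL, hσ, hσM, hAN, hst, hty⟩ := types a c D Φ g j hj N M hM hT hN
  have hex : ∀ s, ∃ (y : Fin (w + 1) → ℕ) (b : Fin (w + 1) → (Fin (w + 1) → F) →ₗ[F] F),
      (∀ l, y l ∈ Set.Ico (A + (2 * σ (2 * s)) * L) (A + (2 * σ (2 * s) + 1) * L)) ∧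
      ∀ v ∈ Submodule.span F
        (Φ '' Set.Ico (A + (2 * σ (2 * s)) * L) (A + (2 * σ (2 * s) + 1) * L)),
        ∑ l, b l v • Φ (y l) = v := by
    intro s
    apply refs
    refine ⟨A + (2 * σ (2 * s)) * L, ?_⟩
    simp only [Set.mem_Ico, le_refl, true_and]
    have : (2 * σ (2 * s) + 1) * L = (2 * σ (2 * s)) * L + L := by ring
    omega
  choose y b hy hb using hex
  set K : ℕ → ℕ := fun h => A + (2 * σ (2 * h + 1) + 1) * L with hKdef
  set ρ : ℕ → ℕ := fun h => A + (2 * σ (2 * h) + 1) * L with hρdef
  have hblock : ∀ x z : ℕ, x < z → A + x * L < A + z * L := fun x z hxz => by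
    have := Nat.mul_lt_mul_of_pos_right hxz hL
    omega
  have hblock' : ∀ x z : ℕ, x ≤ z → A + x * L ≤ A + z * L := fun x z hxz => by
    have := Nat.mul_le_mul_right L hxz
    omega
  have hK : StrictMono K := by
    intro h h' hh
    have := hσ (show 2 * h + 1 < 2 * h' + 1 by omega)
    exact hblock _ _ (by omega)
  have hKN : ∀ h < M, K h < N := by
    intro h hh
    exact lt_of_lt_of_le (hblock _ _ (hσM (2 * h + 1) (by omega))) hAN
  have h1 : ∀ s < M, ∀ l, y s l < ρ s := fun s _ l => (hy s l).2
  have h1' : ∀ s < M, ρ s < K s := by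
    intro s _
    have := hσ (show 2 * s < 2 * s + 1 by omega)
    exact hblock _ _ (by omega)
  have h2 : ∀ h s, h < s → s < M → ∀ l, K h < y s l := by
    intro h s hhs _ l
    have := hσ (show 2 * h + 1 < 2 * s by omega)
    exact lt_of_lt_of_le (hblock _ _ (by omega)) (hy s l).1
  have hbΦ : ∀ s < M, ∀ h < M, ∑ l, b s l (Φ (K h)) • Φ (y s l) = Φ (K h) := by
    intro s hs h hh
    apply hb
    have e := (hst (2 * σ (2 * s)) (by have := hσM (2 * s) (by omega); omega)).1
    rw [e]
    apply Submodule.subset_span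
    refine ⟨_, ?_, rfl⟩
    simp only [Set.mem_Ico]
    exact ⟨Nat.le_add_right _ _, hblock _ _ (hσM (2 * h + 1) (by omega))⟩
  refine ⟨K, hK, hKN, ?_⟩
  have hρK : ∀ s s', s < s' → ρ s + L ≤ K s' := by
    intro s s' hss
    have h3 := hσ (show 2 * s < 2 * s' + 1 by omega)
    have h4 : ρ s + L = A + (2 * σ (2 * s) + 2) * L := by
      simp only [hρdef]
      ring
    rw [h4]
    exact hblock' _ _ (by omega)
  have hρy : ∀ s s', s < s' → ∀ l, ρ s + L ≤ y s' l := by
    intro s s' hss l
    have h3 := hσ (show 2 * s < 2 * s' by omega)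
    have h4 : ρ s + L = A + (2 * σ (2 * s) + 2) * L := by
      simp only [hρdef]
      ring
    rw [h4]
    exact (hblock' _ _ (by omega)).trans (hy s' l).1
  refine rep_of_sum (insert j D) b (fun h => Φ (K h)) (fun x => a (c (univ.image x))) K ρ y j M ?_
  intro h hh hhM
  have hfs := full_split (fun x => a (c (univ.image x))) j (ZZ K ρ y j h)
    (uu (insert j D) b (fun h => Φ (K h)) h)
  refine hfs.trans ?_
  -- the environment
  have hkill : Kill D Φ j (fun i => ZZ K ρ y j h (j.succAbove i))
      (fun i => uu (insert j D) b (fun h => Φ (K h)) h (j.succAbove i)) := by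
    intro i t
    beta_reduce
    have hne : j.succAbove i ≠ j := Fin.succAbove_ne _ _
    have hp : prv h (j.succAbove i) < M := lt_of_le_of_lt (prv_le hh _) (hhM _)
    have hnone : uu (insert j D) b (fun h => Φ (K h)) h (j.succAbove i) none = 1 := rfl
    rw [Fintype.sum_option, hnone]
    by_cases hD : j.succAbove i ∈ D
    · simp only [uu_mem b _ h (mem_insert_of_mem hD), fam, if_pos hD]
      by_cases ht : t = 0
      · simp [ht]
      · simp [ht]
    · have hD' : j.succAbove i ∉ insert j D := by
        rw [mem_insert]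
        push Not
        exact ⟨hne, hD⟩
      simp only [uu_not b _ h hD', fam, if_neg hD, ZZ, if_neg hne, one_mul]
      have h6 := congrFun (hbΦ _ hp (h (j.succAbove i)) (hhM _)) t
      rw [Finset.sum_apply] at h6
      simp only [Pi.smul_apply, smul_eq_mul] at h6
      conv_lhs => rw [← h6]
      rw [← Finset.sum_add_distrib]
      exact Finset.sum_eq_zero fun l _ => by ring
  have hp : prv h j < M := lt_of_le_of_lt (prv_le hh _) (hhM _)
  have hgood1 : Good j N (fun i => ZZ K ρ y j h (j.succAbove i)) (K (h j)) := by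
    refine good_gen hK hKN h1 h1' h2 hh hhM _ (hKN _ (hhM _)) ?_ ?_
    · intro i hi
      rw [← hi]
      exact hK (hh Fin.castSucc_lt_succ)
    · intro i hi o
      rw [← hi]
      exact lt_ZZ hK h1 h2 hh hhM i o
  have hgood2 : ∀ v, ρ (prv h j) ≤ v → v < ρ (prv h j) + L →
      Good j N (fun i => ZZ K ρ y j h (j.succAbove i)) v := by
    intro v hv hv'
    refine good_gen hK hKN h1 h1' h2 hh hhM _ ?_ ?_ ?_
    · have h3 := hσM (2 * prv h j) (by omega)
      have h4 : ρ (prv h j) + L = A + (2 * σ (2 * prv h j) + 2) * L := by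
        simp only [hρdef]
        ring
      have h5 := hblock' (2 * σ (2 * prv h j) + 2) M₂ (by omega)
      omega
    · intro i hi
      have h3 : prv h j = h i.castSucc + 1 := by
        rw [← hi]
        simp only [prv, Fin.cons_succ]
      have h4 := h2 (h i.castSucc) (prv h j) (by omega) hp 0
      have h5 := h1 (prv h j) hp 0
      omega
    · intro i hi o
      have h3 : prv h i.succ = h i.castSucc + 1 := by
        simp only [prv, Fin.cons_succ]
      have h4 : prv h j ≤ h i.castSucc := by
        rw [hi]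
        exact prv_le hh j
      have hij : i.succ ≠ j := by
        rw [← hi]
        exact Fin.castSucc_lt_succ.ne'
      have h5 : h i.castSucc < h i.succ := hh Fin.castSucc_lt_succ
      cases o with
      | none =>
        have := hρK (prv h j) (h i.succ) (by omega)
        simp only [ZZ]
        omega
      | some l =>
        have := hρy (prv h j) (prv h i.succ) (by omega) l
        simp only [ZZ, if_neg hij]
        omega
  have hU : Us (fun x => a (c (univ.image x))) j (K (h j))
      (fun i => ZZ K ρ y j h (j.succAbove i))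
      (fun i => uu (insert j D) b (fun h => Φ (K h)) h (j.succAbove i)) =
      Us (fun x => a (c (univ.image x))) j (ρ (prv h j))
      (fun i => ZZ K ρ y j h (j.succAbove i))
      (fun i => uu (insert j D) b (fun h => Φ (K h)) h (j.succAbove i)) := by
    rw [us_eq' hT hj hkill hgood1, us_eq' hT hj hkill (hgood2 _ le_rfl (by omega))]
    refine hty (2 * h j + 1) (2 * prv h j) (by have := hhM j; omega) (by omega) _ ?_
    have e := (hst (2 * σ (2 * prv h j) + 1) (hσM _ (by omega))).2
    rw [← e]
    apply Submodule.subset_span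
    refine ⟨_, _, hkill, ?_, rfl⟩
    intro v hv hv'
    apply hgood2 v hv
    have h4 : ρ (prv h j) + L = A + (2 * σ (2 * prv h j) + 1 + 1) * L := by
      simp only [hρdef]
      ring
    omega
  rw [Fintype.sum_option]
  have hj' : j ∈ insert j D := mem_insert_self _ _
  simp only [uu_mem b _ h hj']
  have e1 : ZZ K ρ y j h j none = K (h j) := rfl
  have e2 : ∀ l, ZZ K ρ y j h j (some l) = ρ (prv h j) := fun l => by simp [ZZ]
  have e3 : uu (insert j D) b (fun h => Φ (K h)) h j none = 1 := rfl
  rw [e1, e3, hU]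
  simp only [e2]
  simp

end Pool.Agent.Y424.SX
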