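import Pool.Agent.TH360.SR.Gaps
import Pool.Agent.Y424.SX.Expand
import Pool.Agent.Y424.SX.Blocks

/-!
# Vertices of few types
-/

set_option autoImplicit false

namespace Pool.Agent.Y424.SX

open Finset Module

variable {F : Type*} [Field F] {k w : ℕ}

/-- the functions of one coordinate: the constant one for the coordinates in `D`, and the functions
`Φ · t` for the other coordinates -/
def fam (D : Finset (Fin (k + 1))) (Φ : ℕ → Fin (w + 1) → F) (m : Fin (k + 1)) (t : Fin (w + 1))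
    (v : ℕ) : F :=
  if m ∈ D then (if t = 0 then 1 else 0) else Φ v t

/-- `T` is the sum of the slices given by `fam D Φ` and `g` -/
def Rep (D : Finset (Fin (k + 1))) (Φ : ℕ → Fin (w + 1) → F) (N : ℕ) (T : (Fin (k + 1) → ℕ) → F)
    (g : Fin (k + 1) → Fin (w + 1) → (Fin k → ℕ) → F) : Prop :=
  ∀ x : Fin (k + 1) → ℕ, StrictMono x → (∀ i, x i < N) →
    T x = ∑ m, ∑ t, fam D Φ m t (x m) * g m t (m.removeNth x)

/-- the tuples with coordinate `j` equal to `v` are increasing -/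
def Good (j : Fin (k + 1)) (N : ℕ) (ζ : Fin k → Option (Fin (w + 1)) → ℕ) (v : ℕ) : Prop :=
  ∀ β : Fin k → Option (Fin (w + 1)),
    StrictMono (j.insertNth v (fun i => ζ i (β i)) : Fin (k + 1) → ℕ) ∧
      ∀ i, (j.insertNth v (fun i => ζ i (β i)) : Fin (k + 1) → ℕ) i < N

/-- the weights annihilate the slices at the coordinates different from `j` -/
def Kill (D : Finset (Fin (k + 1))) (Φ : ℕ → Fin (w + 1) → F) (j : Fin (k + 1))
    (ζ : Fin k → Option (Fin (w + 1)) → ℕ) (u : Fin k → Option (Fin (w + 1)) → F) : Prop :=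
  ∀ i t, ∑ o, u i o * fam D Φ (j.succAbove i) t (ζ i o) = 0

/-- the vectors of the environments which jump over an interval -/
def Env (D : Finset (Fin (k + 1))) (Φ : ℕ → Fin (w + 1) → F)
    (g : Fin (k + 1) → Fin (w + 1) → (Fin k → ℕ) → F) (j : Fin (k + 1)) (N a b : ℕ) :
    Set (Fin (w + 1) → F) :=
  {γ | ∃ (ζ : Fin k → Option (Fin (w + 1)) → ℕ) (u : Fin k → Option (Fin (w + 1)) → F),
    Kill D Φ j ζ u ∧ (∀ v, a ≤ v → v < b → Good j N ζ v) ∧ Gm g j ζ u = γ}

theorem Env_anti (D : Finset (Fin (k + 1))) (Φ : ℕ → Fin (w + 1) → F)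
    (g : Fin (k + 1) → Fin (w + 1) → (Fin k → ℕ) → F) (j : Fin (k + 1)) (N a b a' b' : ℕ)
    (ha : a ≤ a') (hb : b' ≤ b) : Env D Φ g j N a b ⊆ Env D Φ g j N a' b' := by
  rintro γ ⟨ζ, u, h1, h2, h3⟩
  exact ⟨ζ, u, h1, fun v hv hv' => h2 v (ha.trans hv) (lt_of_lt_of_le hv' hb), h3⟩

theorem us_eq' {D : Finset (Fin (k + 1))} {Φ : ℕ → Fin (w + 1) → F} {N : ℕ}
    {T : (Fin (k + 1) → ℕ) → F} {g : Fin (k + 1) → Fin (w + 1) → (Fin k → ℕ) → F}
    (hT : Rep D Φ N T g) {j : Fin (k + 1)} (hj : j ∉ D)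
    {ζ : Fin k → Option (Fin (w + 1)) → ℕ} {u : Fin k → Option (Fin (w + 1)) → F}
    (hk : Kill D Φ j ζ u) {v : ℕ} (hg : Good j N ζ v) :
    Us T j v ζ u = ∑ t, Φ v t * Gm g j ζ u t := by
  rw [us_eq (none : Option (Fin (w + 1))) T (fam D Φ) g j v ζ u
    (fun β => hT _ (hg β).1 (hg β).2) hk]
  refine Finset.sum_congr rfl fun t _ => ?_
  rw [fam, if_neg hj]

/-- Blocks on which the functions `Φ` and the environments have the same spans. -/
theorem stable (D : Finset (Fin (k + 1))) (Φ : ℕ → Fin (w + 1) → F)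
    (g : Fin (k + 1) → Fin (w + 1) → (Fin k → ℕ) → F) (j : Fin (k + 1)) (N M : ℕ) (hM : 1 ≤ M)
    (hN : M ^ (2 * w + 3) ≤ N) :
    ∃ a L, 1 ≤ L ∧ a + M * L ≤ N ∧ ∀ h < M,
      Submodule.span F (Φ '' Set.Ico (a + h * L) (a + (h + 1) * L)) =
        Submodule.span F (Φ '' Set.Ico a (a + M * L)) ∧
      Submodule.span F (Env D Φ g j N (a + h * L) (a + (h + 1) * L)) =
        Submodule.span F (Env D Φ g j N a (a + M * L)) := by
  have hr : ∀ S : Submodule F (Fin (w + 1) → F), finrank F S ≤ w + 1 := by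
    intro S
    have h1 := Submodule.finrank_le S
    rw [Module.finrank_fin_fun] at h1
    exact h1
  have hm1 : ∀ a b a' b' : ℕ, a ≤ a' → b' ≤ b → Submodule.span F (Φ '' Set.Ico a' b') ≤
      Submodule.span F (Φ '' Set.Ico a b) := by
    intro a b a' b' h1 h2
    apply Submodule.span_mono
    apply Set.image_mono
    intro x hx
    simp only [Set.mem_Ico] at hx ⊢
    omega
  have hm2 : ∀ a b a' b' : ℕ, a ≤ a' → b' ≤ b → Submodule.span F (Env D Φ g j N a b) ≤
      Submodule.span F (Env D Φ g j N a' b') :=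
    fun a b a' b' h1 h2 => Submodule.span_mono (Env_anti D Φ g j N a b a' b' h1 h2)
  obtain ⟨a, L, -, hL, hle, hst⟩ := blocks (fun a b => finrank F
    (Submodule.span F (Φ '' Set.Ico a b)) +
      (w + 1 - finrank F (Submodule.span F (Env D Φ g j N a b)))) (by
      intro a b a' b' h1 h2
      have h3 := Submodule.finrank_mono (hm1 a b a' b' h1 h2)
      have h4 := Submodule.finrank_mono (hm2 a b a' b' h1 h2)
      omega) M hM (2 * w + 2) 0 (by
      have h3 := hr (Submodule.span F (Φ '' Set.Ico 0 (0 + M ^ (2 * w + 2 + 1))))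
      omega)
  refine ⟨a, L, hL, ?_, fun h hh => ?_⟩
  · have : 0 + M ^ (2 * w + 2 + 1) = M ^ (2 * w + 3) := by rw [zero_add]
    omega
  · have h0 : (h + 1) * L ≤ M * L := Nat.mul_le_mul_right _ hh
    have h1 := hst h hh
    have h3 := Submodule.finrank_mono (hm1 a (a + M * L) (a + h * L) (a + (h + 1) * L)
      (by omega) (by omega))
    have h4 := Submodule.finrank_mono (hm2 a (a + M * L) (a + h * L) (a + (h + 1) * L)
      (by omega) (by omega))
    have h5 := hr (Submodule.span F (Env D Φ g j N (a + h * L) (a + (h + 1) * L)))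
    constructor
    · apply Submodule.eq_of_le_of_finrank_eq (hm1 _ _ _ _ (by omega) (by omega))
      omega
    · symm
      apply Submodule.eq_of_le_of_finrank_eq (hm2 _ _ _ _ (by omega) (by omega))
      omega

/-- Finitely many environments span. -/
theorem env_basis (D : Finset (Fin (k + 1))) (Φ : ℕ → Fin (w + 1) → F)
    (g : Fin (k + 1) → Fin (w + 1) → (Fin k → ℕ) → F) (j : Fin (k + 1)) (N a b : ℕ) :
    ∃ d ≤ w + 1, ∃ (ζ : Fin d → Fin k → Option (Fin (w + 1)) → ℕ)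
      (u : Fin d → Fin k → Option (Fin (w + 1)) → F),
      (∀ i, Kill D Φ j (ζ i) (u i)) ∧ (∀ i v, a ≤ v → v < b → Good j N (ζ i) v) ∧
      Submodule.span F (Env D Φ g j N a b) ≤
        Submodule.span F (Set.range fun i => Gm g j (ζ i) (u i)) := by
  obtain ⟨f, hfs, hspan, -⟩ := Submodule.exists_fun_fin_finrank_span_eq F (Env D Φ g j N a b)
  have h1 := Submodule.finrank_le (Submodule.span F (Env D Φ g j N a b))
  rw [Module.finrank_fin_fun] at h1
  choose ζ u h2 h3 h4 using hfs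
  refine ⟨_, h1, ζ, u, h2, h3, ?_⟩
  refine hspan.ge.trans (Submodule.span_mono ?_)
  rintro _ ⟨i, rfl⟩
  exact ⟨i, h4 i⟩

/-- Vertices of the same type. -/
theorem types {κ : Type} [Fintype κ] (a : κ → F) (c : Finset ℕ → κ)
    (D : Finset (Fin (k + 1))) (Φ : ℕ → Fin (w + 1) → F)
    (g : Fin (k + 1) → Fin (w + 1) → (Fin k → ℕ) → F) (j : Fin (k + 1)) (hj : j ∉ D) (N M : ℕ)
    (hM : 1 ≤ M) (hT : Rep D Φ N (fun x => a (c (univ.image x))) g)
    (hN : (4 * M * Fintype.card κ ^ ((w + 1) * (w + 2) ^ k)) ^ (2 * w + 3) ≤ N) :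
    ∃ (A L M₂ : ℕ) (σ : ℕ → ℕ), 1 ≤ L ∧ StrictMono σ ∧ (∀ i < 2 * M, 2 * σ i + 1 < M₂) ∧
      A + M₂ * L ≤ N ∧
      (∀ h < M₂, Submodule.span F (Φ '' Set.Ico (A + h * L) (A + (h + 1) * L)) =
        Submodule.span F (Φ '' Set.Ico A (A + M₂ * L)) ∧
      Submodule.span F (Env D Φ g j N (A + h * L) (A + (h + 1) * L)) =
        Submodule.span F (Env D Φ g j N A (A + M₂ * L))) ∧
      ∀ i i', i < 2 * M → i' < 2 * M → ∀ γ ∈ Submodule.span F (Env D Φ g j N A (A + M₂ * L)),
        ∑ t, Φ (A + (2 * σ i + 1) * L) t * γ t = ∑ t, Φ (A + (2 * σ i' + 1) * L) t * γ t := by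
  classical
  set Q := Fintype.card κ ^ ((w + 1) * (w + 2) ^ k) with hQ
  have hq : 1 ≤ Fintype.card κ := Fintype.card_pos_iff.2 ⟨c ∅⟩
  have hQ1 : 1 ≤ Q := Nat.one_le_pow _ _ hq
  obtain ⟨A, L, hL, hle, hst⟩ := stable D Φ g j N (4 * M * Q) (by
    have : 1 ≤ M * Q := Nat.one_le_iff_ne_zero.2 (by positivity)
    nlinarith) hN
  obtain ⟨d, hd, ζ, u, hk, hg, hsp⟩ := env_basis D Φ g j N A (A + 4 * M * Q * L)
  let typ : ℕ → (Fin d → (Fin k → Option (Fin (w + 1))) → κ) := fun h i β =>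
    c (univ.image (j.insertNth (A + (2 * h + 1) * L) (fun i' => ζ i i' (β i')) :
      Fin (k + 1) → ℕ))
  have hcard : Fintype.card (Fin d → (Fin k → Option (Fin (w + 1))) → κ) ≤ Q := by
    simp only [Fintype.card_fun, Fintype.card_fin, Fintype.card_option]
    rw [← pow_mul, hQ]
    apply Nat.pow_le_pow_right hq
    rw [mul_comm]
    exact Nat.mul_le_mul_right _ hd
  obtain ⟨τ, -, hτ⟩ := exists_le_card_fiber_of_mul_le_card_of_maps_to (s := range (2 * M * Q))
    (t := (univ : Finset (Fin d → (Fin k → Option (Fin (w + 1))) → κ))) (f := typ) (n := 2 * M)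
    (fun _ _ => mem_univ _) (univ_nonempty_iff.2 ⟨fun _ _ => c ∅⟩) (by
      rw [card_univ, card_range, mul_comm]
      exact Nat.mul_le_mul_left _ hcard)
  obtain ⟨σ, hσ, hσ'⟩ := enum ((range (2 * M * Q)).filter (fun h => typ h = τ))
  have hσ1 : ∀ i < 2 * M, σ i < 2 * M * Q ∧ typ (σ i) = τ := by
    intro i hi
    have := mem_filter.1 (hσ' i (lt_of_lt_of_le hi hτ))
    exact ⟨mem_range.1 this.1, this.2⟩
  have hlt : ∀ i < 2 * M, 2 * σ i + 1 < 4 * M * Q := by
    intro i hi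
    have := (hσ1 i hi).1
    have e : 4 * M * Q = 2 * (2 * M * Q) := by ring
    omega
  have hin : ∀ i < 2 * M, A + (2 * σ i + 1) * L < A + 4 * M * Q * L := by
    intro i hi
    have := Nat.mul_lt_mul_of_pos_right (hlt i hi) hL
    omega
  refine ⟨A, L, 4 * M * Q, σ, hL, hσ, hlt, hle, hst, ?_⟩
  intro i i' hi hi' γ hγ
  -- the linear form
  let lam : (Fin (w + 1) → F) →ₗ[F] F :=
    { toFun := fun γ => ∑ t, (Φ (A + (2 * σ i + 1) * L) t - Φ (A + (2 * σ i' + 1) * L) t) * γ t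
      map_add' := by
        intro x y
        simp only [Pi.add_apply, mul_add, Finset.sum_add_distrib]
      map_smul' := by
        intro r x
        simp only [Pi.smul_apply, smul_eq_mul, RingHom.id_apply, Finset.mul_sum]
        refine Finset.sum_congr rfl fun t _ => ?_
        ring }
  have hker : Submodule.span F (Set.range fun i => Gm g j (ζ i) (u i)) ≤ LinearMap.ker lam := by
    rw [Submodule.span_le]
    rintro _ ⟨e, rfl⟩
    rw [SetLike.mem_coe, LinearMap.mem_ker]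
    show ∑ t, (Φ (A + (2 * σ i + 1) * L) t - Φ (A + (2 * σ i' + 1) * L) t) *
      Gm g j (ζ e) (u e) t = 0
    have h1 := us_eq' hT hj (hk e) (hg e (A + (2 * σ i + 1) * L) (by omega) (hin i hi))
    have h2 := us_eq' hT hj (hk e) (hg e (A + (2 * σ i' + 1) * L) (by omega) (hin i' hi'))
    have h3 : Us (fun x => a (c (univ.image x))) j (A + (2 * σ i + 1) * L) (ζ e) (u e) =
        Us (fun x => a (c (univ.image x))) j (A + (2 * σ i' + 1) * L) (ζ e) (u e) := by
      unfold Us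
      refine Finset.sum_congr rfl fun β _ => ?_
      have h4 : typ (σ i) e β = typ (σ i') e β := by
        rw [(hσ1 i hi).2, (hσ1 i' hi').2]
      have h5 : c (univ.image (j.insertNth (A + (2 * σ i + 1) * L) (fun i' => ζ e i' (β i')) :
          Fin (k + 1) → ℕ)) = c (univ.image (j.insertNth (A + (2 * σ i' + 1) * L)
            (fun i' => ζ e i' (β i')) : Fin (k + 1) → ℕ)) := h4
      beta_reduce
      rw [h5]
    rw [h1, h2] at h3
    simp only [sub_mul, Finset.sum_sub_distrib]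
    rw [h3, sub_self]
  have h6 := hker (hsp hγ)
  rw [LinearMap.mem_ker] at h6
  have h7 : ∑ t, (Φ (A + (2 * σ i + 1) * L) t - Φ (A + (2 * σ i' + 1) * L) t) * γ t = 0 := h6
  simp only [sub_mul, Finset.sum_sub_distrib] at h7
  exact sub_eq_zero.1 h7

end Pool.Agent.Y424.SX
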